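import Pool.Agent.Helper57.SS.Goals

/-!
# ATM: no mass over an atom (project SS)
-/

set_option autoImplicit false

namespace Pool.Agent.Helper89.SS

open MeasureTheory ProbabilityTheory Filter Topology
open Pool.Agent.Helper57.SS
open scoped ComplexConjugate

/-- the averaged kernel -/
noncomputable def DK (θ : Ci) (M : ℕ) (s : Ci) : ℂ :=
  (M : ℂ)⁻¹ * ∑ m ∈ Finset.range M, fourier (-(m : ℤ)) θ * fourier (m : ℤ) s

lemma norm_fourier (n : ℤ) (x : Ci) : ‖(fourier n x : ℂ)‖ = 1 := by
  rw [fourier_apply]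
  exact Circle.norm_coe _

lemma fourier_mul_eq (m : ℕ) (θ s : Ci) :
    (fourier (-(m : ℤ)) θ * fourier (m : ℤ) s : ℂ) = ((AddCircle.toCircle (s - θ) : Circle) : ℂ) ^ m := by
  rw [fourier_apply, fourier_apply, ← Circle.coe_pow, ← AddCircle.toCircle_nsmul, ← Circle.coe_mul,
    ← AddCircle.toCircle_add]
  congr 2
  rw [smul_sub, neg_smul, natCast_zsmul, natCast_zsmul]
  abel

lemma norm_DK (θ : Ci) (M : ℕ) (s : Ci) : ‖DK θ M s‖ ≤ 1 := by
  unfold DK
  rw [norm_mul, norm_inv, Complex.norm_natCast]
  rcases Nat.eq_zero_or_pos M with rfl | hM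
  · simp
  · have h1 : ‖∑ m ∈ Finset.range M, (fourier (-(m : ℤ)) θ * fourier (m : ℤ) s : ℂ)‖ ≤ M := by
      refine (norm_sum_le _ _).trans ?_
      rw [Finset.sum_congr rfl (g := fun _ => (1 : ℝ)) fun m _ => by
        rw [norm_mul, norm_fourier, norm_fourier, one_mul]]
      simp
    have hM' : (0 : ℝ) < M := by exact_mod_cast hM
    rw [inv_mul_le_iff₀ hM', mul_one]
    exact h1

open Classical in
lemma tendsto_DK (θ s : Ci) :
    Tendsto (fun M => DK θ M s) atTop (𝓝 (if s = θ then 1 else 0)) := by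
  split_ifs with h
  · subst h
    refine tendsto_const_nhds.congr' ?_
    filter_upwards [eventually_ge_atTop 1] with M hM
    unfold DK
    have hM' : (M : ℂ) ≠ 0 := by
      have : M ≠ 0 := by omega
      exact_mod_cast this
    rw [Finset.sum_congr rfl (g := fun _ => (1 : ℂ)) fun m _ => by
      rw [fourier_mul_eq, sub_self, AddCircle.toCircle_zero, Circle.coe_one, one_pow]]
    rw [Finset.sum_const, Finset.card_range, nsmul_eq_mul, mul_one, inv_mul_cancel₀ hM']
  · set u : ℂ := ((AddCircle.toCircle (s - θ) : Circle) : ℂ) with hu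
    have hu1 : u ≠ 1 := by
      intro h1
      apply h
      have h2 : AddCircle.toCircle (s - θ) = AddCircle.toCircle (0 : Ci) := by
        rw [AddCircle.toCircle_zero]
        apply Circle.coe_injective
        rw [Circle.coe_one]
        exact h1
      have h3 := AddCircle.injective_toCircle (T := (1 : ℝ)) one_ne_zero h2
      exact sub_eq_zero.1 h3
    have hun : ‖u‖ = 1 := Circle.norm_coe _
    have hpos : 0 < ‖u - 1‖ := norm_pos_iff.2 (sub_ne_zero.2 hu1)
    refine squeeze_zero_norm (a := fun M : ℕ => (M : ℝ)⁻¹ * (2 / ‖u - 1‖)) ?_ ?_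
    · intro M
      unfold DK
      rw [Finset.sum_congr rfl fun m _ => fourier_mul_eq m θ s, ← hu, geom_sum_eq hu1, norm_mul,
        norm_inv, Complex.norm_natCast, norm_div]
      refine mul_le_mul_of_nonneg_left (div_le_div_of_nonneg_right ?_ hpos.le) (by positivity)
      refine (norm_sub_le _ _).trans ?_
      rw [norm_pow, hun, one_pow, norm_one]
      norm_num
    · have h1 := (tendsto_inv_atTop_nhds_zero_nat (𝕜 := ℝ)).mul_const (2 / ‖u - 1‖)
      rw [zero_mul] at h1
      exact h1

lemma measurable_fourier (n : ℤ) : Measurable fun x : Ci => (fourier n x : ℂ) :=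
  (map_continuous (fourier n)).measurable

lemma measurable_DK (θ : Ci) (M : ℕ) : Measurable (DK θ M) := by
  unfold DK
  refine Measurable.const_mul ?_ _
  exact Finset.measurable_fun_sum _ fun m _ => (measurable_fourier _).const_mul _

theorem gATM : G_ATM := by
  classical
  intro hU σ1 σ2 _ _ ρ φ θ hρ hφ hlim
  set Θ := σ1.prod σ2 with hΘ
  set S : Set (Ci × Ci) := Prod.fst ⁻¹' {θ} with hSdef
  have hS : MeasurableSet S := measurable_fst (measurableSet_singleton θ)
  have hmul : ∀ (f : Ci × Ci → ℂ) (C : ℝ), Measurable f → (∀ z, ‖f z‖ ≤ C) →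
      Integrable (fun z => ρ z * f z) Θ := by
    intro f C hf hC
    exact hρ.mul_bdd (c := C) hf.aestronglyMeasurable (Eventually.of_forall hC)
  have hm2 : ∀ n : ℤ, Measurable fun z : Ci × Ci => (fourier n z.2 : ℂ) := fun n =>
    (measurable_fourier n).comp measurable_snd
  have hm1 : ∀ n : ℤ, Measurable fun z : Ci × Ci => (fourier n z.1 : ℂ) := fun n =>
    (measurable_fourier n).comp measurable_fst
  have hkey : ∀ n : ℤ, ∫ z, S.indicator ρ z * fourier n z.2 ∂Θ = 0 := by
    intro n
    have h1 : Tendsto (fun M : ℕ => ∫ z, ρ z * (DK θ M z.1 * fourier n z.2) ∂Θ) atTop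
        (𝓝 (∫ z, S.indicator ρ z * fourier n z.2 ∂Θ)) := by
      refine tendsto_integral_of_dominated_convergence (fun z => ‖ρ z‖) ?_ hρ.norm ?_ ?_
      · intro M
        exact hρ.aestronglyMeasurable.mul
          (((measurable_DK θ M).comp measurable_fst).mul (hm2 n)).aestronglyMeasurable
      · intro M
        refine Eventually.of_forall fun z => ?_
        rw [norm_mul, norm_mul, norm_fourier, mul_one]
        exact mul_le_of_le_one_right (norm_nonneg _) (norm_DK _ _ _)
      · refine Eventually.of_forall fun z => ?_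
        have h2 := ((tendsto_DK θ z.1).mul_const (fourier n z.2 : ℂ)).const_mul (ρ z)
        have h3 : ρ z * ((if z.1 = θ then 1 else 0) * (fourier n z.2 : ℂ)) =
            S.indicator ρ z * fourier n z.2 := by
          by_cases hz : z.1 = θ
          · rw [if_pos hz, one_mul, Set.indicator_of_mem (show z ∈ S from hz)]
          · rw [if_neg hz, Set.indicator_of_notMem (show z ∉ S from hz)]
            ring
        rw [h3] at h2
        exact h2
    have h2 : ∀ M : ℕ, ∫ z, ρ z * (DK θ M z.1 * fourier n z.2) ∂Θ =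
        (M : ℂ)⁻¹ * ∑ m ∈ Finset.range M, fourier (-(m : ℤ)) θ * φ ((m : ℤ), n) := by
      intro M
      have h3 : ∀ z : Ci × Ci, ρ z * (DK θ M z.1 * fourier n z.2) =
          (M : ℂ)⁻¹ * ∑ m ∈ Finset.range M, fourier (-(m : ℤ)) θ * (ρ z * e2 ((m : ℤ), n) z) := by
        intro z
        unfold DK e2
        rw [Finset.mul_sum, Finset.mul_sum, Finset.sum_mul, Finset.mul_sum]
        refine Finset.sum_congr rfl fun m _ => ?_
        ring
      simp_rw [h3]
      rw [integral_const_mul, integral_finsetSum]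
      · congr 1
        refine Finset.sum_congr rfl fun m _ => ?_
        rw [integral_const_mul, hφ]
      · intro m _
        refine Integrable.const_mul ?_ _
        refine hmul _ 1 ((hm1 m).mul (hm2 n)) fun z => ?_
        unfold e2
        rw [norm_mul, norm_fourier, norm_fourier, one_mul]
    simp_rw [h2] at h1
    exact tendsto_nhds_unique h1 (hlim n)
  have hint : Integrable (S.indicator ρ) Θ := hρ.indicator hS
  have hall : ∀ p, ∫ z, S.indicator ρ z * e2 p (id z) ∂Θ = ∫ z, (fun _ => (0 : ℂ)) z * e2 p z ∂Θ := by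
    intro p
    have h1 : ∀ z : Ci × Ci, S.indicator ρ z * e2 p (id z) =
        fourier p.1 θ * (S.indicator ρ z * fourier p.2 z.2) := by
      intro z
      unfold e2
      by_cases hz : z ∈ S
      · have hz' : z.1 = θ := hz
        rw [id, hz']
        ring
      · rw [Set.indicator_of_notMem hz]
        ring
    simp_rw [h1]
    rw [integral_const_mul, hkey, mul_zero]
    simp
  -- the phase
  set r := hρ.aestronglyMeasurable.mk ρ with hr
  have hrm : Measurable r := hρ.aestronglyMeasurable.stronglyMeasurable_mk.measurable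
  have hrae : ρ =ᵐ[Θ] r := hρ.aestronglyMeasurable.ae_eq_mk
  have hψm : Measurable fun z => conj (r z) / (‖r z‖ : ℂ) := by
    refine Measurable.div ?_ ?_
    · exact Complex.continuous_conj.measurable.comp hrm
    · exact Complex.measurable_ofReal.comp hrm.norm
  have hψb : ∀ z, ‖conj (r z) / (‖r z‖ : ℂ)‖ ≤ 1 := by
    intro z
    rw [norm_div, RCLike.norm_conj, Complex.norm_real, norm_norm]
    exact div_self_le_one _
  have h := hU Θ Θ id (S.indicator ρ) (fun _ => 0) measurable_id hint (integrable_zero _ _ _) hall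
    (fun z => conj (r z) / (‖r z‖ : ℂ)) hψm ⟨1, hψb⟩
  have h2 : ∫ z, S.indicator ρ z * (conj (r (id z)) / (‖r (id z)‖ : ℂ)) ∂Θ =
      ((∫ z in S, ‖ρ z‖ ∂Θ : ℝ) : ℂ) := by
    rw [← integral_indicator hS, ← integral_complex_ofReal]
    refine integral_congr_ae ?_
    filter_upwards [hrae] with z hz
    by_cases hzS : z ∈ S
    · rw [Set.indicator_of_mem hzS, Set.indicator_of_mem hzS, id, hz]
      by_cases h0 : r z = 0
      · rw [h0]
        simp
      · have h1 : (‖r z‖ : ℂ) ≠ 0 := by
          rw [Ne, Complex.ofReal_eq_zero, norm_eq_zero]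
          exact h0
        rw [mul_div_assoc', Complex.mul_conj, Complex.normSq_eq_norm_sq, div_eq_iff h1]
        push_cast
        ring
    · rw [Set.indicator_of_notMem hzS, Set.indicator_of_notMem hzS, zero_mul]
      simp
  have h3 : ∫ z in S, ‖ρ z‖ ∂Θ = 0 := by
    have h4 : ((∫ z in S, ‖ρ z‖ ∂Θ : ℝ) : ℂ) = 0 := by
      rw [← h2]
      rw [show ∫ z, S.indicator ρ z * (conj (r (id z)) / (‖r (id z)‖ : ℂ)) ∂Θ =
        ∫ z, (fun _ => (0 : ℂ)) z * (conj (r z) / (‖r z‖ : ℂ)) ∂Θ from h]
      simp
    exact_mod_cast h4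
  rw [withDensity_apply _ hS, ← ofReal_integral_norm_eq_lintegral_enorm hρ.restrict, h3,
    ENNReal.ofReal_zero]

end Pool.Agent.Helper89.SS
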